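import Pool.Agent.SS.KappaVal

/-!
# `ζ(3)` and the exponential integral

`E₁ x = ∫_x^∞ e^{-t} dt / t` and `κ x = ∫_x^∞ E₁(t)² dt / t`.
-/

namespace Pool.Agent.Results.MP_48b3e2_nt.ExponentialIntegral

open MeasureTheory Set

/-- the exponential integral `E₁ x = ∫_x^∞ e^{-t} dt / t` -/
noncomputable def E₁ (x : ℝ) : ℝ := ∫ t in Ioi x, Real.exp (-t) / t

/-- `κ x = ∫_x^∞ E₁(t)² dt / t` -/
noncomputable def κ (x : ℝ) : ℝ := ∫ t in Ioi x, E₁ t ^ 2 / t

/-- For pairwise distinct positive rational numbers `r 1, …, r m` the field generated over `ℚ` by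
`e`, `ζ(3)` and the numbers `γ + log (r i)`, `E₁ (r i)`, `κ (r i)` has transcendence degree at least
`2 m + 1`.  In particular, for every rational `r > 0` at least one of `ζ(3)`, `E₁ r`, `κ r` is
transcendental, and there is at most one rational `r > 0` for which `E₁ r` and `κ r` are both
algebraic. -/
theorem result :
    (∀ (m : ℕ) (r : Fin m → ℚ), (∀ i, 0 < r i) → Function.Injective r →
      ((2 * m + 1 : ℕ) : Cardinal) ≤ Algebra.trdeg ℚ (IntermediateField.adjoin ℚ
        ({Real.exp 1, ∑' n : ℕ, (1 : ℝ) / ((n : ℝ) + 1) ^ 3} ∪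
          range (fun i => Real.eulerMascheroniConstant + Real.log (r i)) ∪
          range (fun i => E₁ (r i)) ∪ range (fun i => κ (r i)) : Set ℝ))) ∧
    (∀ r : ℚ, 0 < r → Transcendental ℚ (∑' n : ℕ, (1 : ℝ) / ((n : ℝ) + 1) ^ 3) ∨
      Transcendental ℚ (E₁ r) ∨ Transcendental ℚ (κ r)) ∧
    (∀ r s : ℚ, 0 < r → 0 < s → r ≠ s → Transcendental ℚ (E₁ r) ∨ Transcendental ℚ (κ r) ∨
      Transcendental ℚ (E₁ s) ∨ Transcendental ℚ (κ s)) := by
  refine ⟨fun m r hpos hinj => ?_, fun r hr => Pool.Agent.SS.one_of_three r hr,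
    fun r s hr hs hrs => Pool.Agent.SS.two_points r s hr hs hrs⟩
  have h := Pool.Agent.SS.trdeg_kap r hpos hinj
  rw [Fintype.card_fin] at h
  exact h

end Pool.Agent.Results.MP_48b3e2_nt.ExponentialIntegral
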