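import Pool.Agent.SS.DeltaVal

/-!
# `ζ(3)` and the logarithmic moments of Gompertz type

`δ k = ∫_0^∞ e^{-t} (log (1 + t))^k dt`; `δ 1 = 0.5963...` is Gompertz's constant.
-/

namespace Pool.Agent.Results.MP_48b3e2_nt.GompertzMoments

open Set

/-- `δ k = ∫_0^∞ e^{-t} (log (1 + t))^k dt` -/
noncomputable def δ (k : ℕ) : ℝ :=
  ∫ t in Ioi (0 : ℝ), Real.exp (-t) * (Real.log (1 + t)) ^ k

theorem values_algebraic {R : Type*} [CommRing R] [IsDomain R] [Algebra R ℝ]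
    (he : IsAlgebraic R (Real.exp 1)) (hg : IsAlgebraic R Real.eulerMascheroniConstant)
    (hp : IsAlgebraic R Real.pi)
    (hz : IsAlgebraic R (∑' n : ℕ, (1 : ℝ) / ((n : ℝ) + 1) ^ 3))
    (h1 : IsAlgebraic R (δ 1)) (h2 : IsAlgebraic R (δ 2)) (h3 : IsAlgebraic R (δ 3)) :
    ∀ i : Fin 4, IsAlgebraic R (![Real.exp 1, Pool.Agent.SS.ev (Pool.Agent.SS.Ek 1 (-1)),
      Pool.Agent.SS.ev (Pool.Agent.SS.Ek 2 (-1)), Pool.Agent.SS.ev (Pool.Agent.SS.Ek 3 (-1))] i) := by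
  have hrat : ∀ (q : ℤ), IsAlgebraic R (q : ℝ) := fun q => by
    have := isAlgebraic_algebraMap (R := R) (A := ℝ) (q : R)
    simpa using this
  have hE : ∀ k : ℕ, IsAlgebraic R (δ k) →
      IsAlgebraic R (Pool.Agent.Lib.GammaMoments.m k) →
      IsAlgebraic R (Pool.Agent.SS.ev (Pool.Agent.SS.Ek k (-1))) := by
    intro k hδ hm
    rw [Pool.Agent.SS.Ek_eq]
    have hs : IsAlgebraic R ((-1 : ℝ) ^ (k + 1)) := by
      have := (hrat (-1)).pow (k + 1)
      simpa using this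
    have hf : IsAlgebraic R (((k.factorial : ℝ))⁻¹) := by
      have := (hrat (k.factorial : ℤ)).inv
      simpa using this
    exact (hs.mul hf).mul (hm.sub (he.inv.mul hδ))
  have hm1 : IsAlgebraic R (Pool.Agent.Lib.GammaMoments.m 1) := by
    rw [Pool.Agent.Lib.GammaMoments.m_one]; exact hg.neg
  have hm2 : IsAlgebraic R (Pool.Agent.Lib.GammaMoments.m 2) := by
    rw [Pool.Agent.Lib.GammaMoments.m_two]
    have h6 := (hrat 6).inv
    have : Real.pi ^ 2 / 6 + Real.eulerMascheroniConstant ^ 2 =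
        Real.pi ^ 2 * (((6 : ℤ) : ℝ))⁻¹ + Real.eulerMascheroniConstant ^ 2 := by
      push_cast; ring
    rw [this]
    exact ((hp.pow 2).mul h6).add (hg.pow 2)
  have hm3 : IsAlgebraic R (Pool.Agent.Lib.GammaMoments.m 3) := by
    rw [Pool.Agent.Lib.GammaMoments.m_three]
    have h2' := (hrat 2).inv
    have : -2 * (∑' i : ℕ, 1 / ((i : ℝ) + 1) ^ 3) -
        Real.eulerMascheroniConstant * Real.pi ^ 2 / 2 - Real.eulerMascheroniConstant ^ 3 =
        ((-2 : ℤ) : ℝ) * (∑' i : ℕ, 1 / ((i : ℝ) + 1) ^ 3) -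
        Real.eulerMascheroniConstant * Real.pi ^ 2 * (((2 : ℤ) : ℝ))⁻¹ -
          Real.eulerMascheroniConstant ^ 3 := by
      push_cast; ring
    rw [this]
    exact (((hrat (-2)).mul hz).sub ((hg.mul (hp.pow 2)).mul h2')).sub (hg.pow 3)
  intro i
  fin_cases i
  · exact he
  · exact hE 1 h1 hm1
  · exact hE 2 h2 hm2
  · exact hE 3 h3 hm3

/-- The field generated by `e, γ, π, ζ(3), δ 1, δ 2, δ 3` has transcendence degree at least `4`.
If `δ 1, δ 2, δ 3` are algebraic then `e, γ, π, ζ(3)` are algebraically independent.  At least one of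
`ζ(3), δ 1, δ 2, δ 3` is transcendental. -/
theorem result :
    4 ≤ Algebra.trdeg ℚ (IntermediateField.adjoin ℚ ({Real.exp 1, Real.eulerMascheroniConstant,
      Real.pi, ∑' n : ℕ, (1 : ℝ) / ((n : ℝ) + 1) ^ 3, δ 1, δ 2, δ 3} : Set ℝ)) ∧
    (IsAlgebraic ℚ (δ 1) → IsAlgebraic ℚ (δ 2) → IsAlgebraic ℚ (δ 3) →
      AlgebraicIndependent ℚ ![Real.exp 1, Real.eulerMascheroniConstant, Real.pi,
        ∑' n : ℕ, (1 : ℝ) / ((n : ℝ) + 1) ^ 3]) ∧
    (Transcendental ℚ (∑' n : ℕ, (1 : ℝ) / ((n : ℝ) + 1) ^ 3) ∨ Transcendental ℚ (δ 1) ∨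
      Transcendental ℚ (δ 2) ∨ Transcendental ℚ (δ 3)) := by
  have hval := Pool.Agent.SS.values_neg_one
  have hind : IsAlgebraic ℚ (δ 1) → IsAlgebraic ℚ (δ 2) → IsAlgebraic ℚ (δ 3) →
      AlgebraicIndependent ℚ ![Real.exp 1, Real.eulerMascheroniConstant, Real.pi,
        ∑' n : ℕ, (1 : ℝ) / ((n : ℝ) + 1) ^ 3] := by
    intro h1 h2 h3
    set x : Fin 4 → ℝ := ![Real.exp 1, Real.eulerMascheroniConstant, Real.pi,
        ∑' n : ℕ, (1 : ℝ) / ((n : ℝ) + 1) ^ 3] with hx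
    apply Pool.Agent.SS.exchange hval
    have hinj : Function.Injective (algebraMap ℚ (Algebra.adjoin ℚ (range x))) :=
      (algebraMap ℚ _).injective
    have hmem : ∀ i, IsAlgebraic (Algebra.adjoin ℚ (range x)) (x i) := fun i =>
      isAlgebraic_algebraMap (⟨x i, Algebra.subset_adjoin ⟨i, rfl⟩⟩ : Algebra.adjoin ℚ (range x))
    exact values_algebraic (hmem 0) (hmem 1) (hmem 2) (hmem 3) (h1.extendScalars hinj)
      (h2.extendScalars hinj) (h3.extendScalars hinj)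
  refine ⟨?_, hind, ?_⟩
  · set S : Set ℝ := {Real.exp 1, Real.eulerMascheroniConstant,
      Real.pi, ∑' n : ℕ, (1 : ℝ) / ((n : ℝ) + 1) ^ 3, δ 1, δ 2, δ 3} with hS
    set F := IntermediateField.adjoin ℚ S with hF
    have hmem : ∀ a ∈ S, a ∈ F := fun a ha => IntermediateField.subset_adjoin ℚ S ha
    have hq : ∀ q : ℚ, (q : ℝ) ∈ F := fun q => F.algebraMap_mem q
    have he := hmem (Real.exp 1) (by simp [hS])
    have hg := hmem Real.eulerMascheroniConstant (by simp [hS])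
    have hp := hmem Real.pi (by simp [hS])
    have hz := hmem (∑' n : ℕ, (1 : ℝ) / ((n : ℝ) + 1) ^ 3) (by simp [hS])
    have h1 := hmem (δ 1) (by simp [hS])
    have h2 := hmem (δ 2) (by simp [hS])
    have h3 := hmem (δ 3) (by simp [hS])
    have hE : ∀ k : ℕ, δ k ∈ F → Pool.Agent.Lib.GammaMoments.m k ∈ F →
        Pool.Agent.SS.ev (Pool.Agent.SS.Ek k (-1)) ∈ F := by
      intro k hδ hm
      rw [Pool.Agent.SS.Ek_eq]
      have hs : ((-1 : ℝ)) ^ (k + 1) ∈ F := pow_mem (F.neg_mem F.one_mem) _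
      have hf : (((k.factorial : ℝ))⁻¹) ∈ F := F.inv_mem (by
        have := hq (k.factorial : ℚ)
        simpa using this)
      exact F.mul_mem (F.mul_mem hs hf) (F.sub_mem hm (F.mul_mem (F.inv_mem he) hδ))
    have hm1 : Pool.Agent.Lib.GammaMoments.m 1 ∈ F := by
      rw [Pool.Agent.Lib.GammaMoments.m_one]; exact F.neg_mem hg
    have hm2 : Pool.Agent.Lib.GammaMoments.m 2 ∈ F := by
      rw [Pool.Agent.Lib.GammaMoments.m_two]
      have h6 : (6 : ℝ) ∈ F := by exact_mod_cast hq 6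
      exact F.add_mem (F.div_mem (pow_mem hp 2) h6) (pow_mem hg 2)
    have hm3 : Pool.Agent.Lib.GammaMoments.m 3 ∈ F := by
      rw [Pool.Agent.Lib.GammaMoments.m_three]
      have h2' : (2 : ℝ) ∈ F := by exact_mod_cast hq 2
      exact F.sub_mem (F.sub_mem (F.mul_mem (F.neg_mem h2') hz)
        (F.div_mem (F.mul_mem hg (pow_mem hp 2)) h2')) (pow_mem hg 3)
    have hmemv : ∀ i : Fin 4, ![Real.exp 1, Pool.Agent.SS.ev (Pool.Agent.SS.Ek 1 (-1)),
        Pool.Agent.SS.ev (Pool.Agent.SS.Ek 2 (-1)), Pool.Agent.SS.ev (Pool.Agent.SS.Ek 3 (-1))] i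
          ∈ F := by
      intro i
      fin_cases i
      · exact he
      · exact hE 1 h1 hm1
      · exact hE 2 h2 hm2
      · exact hE 3 h3 hm3
    let y : Fin 4 → F := fun i => ⟨_, hmemv i⟩
    have hy : AlgebraicIndependent ℚ y := by
      have h4 : ![Real.exp 1, Pool.Agent.SS.ev (Pool.Agent.SS.Ek 1 (-1)),
        Pool.Agent.SS.ev (Pool.Agent.SS.Ek 2 (-1)), Pool.Agent.SS.ev (Pool.Agent.SS.Ek 3 (-1))] =
          F.val ∘ y := rfl
      rw [h4] at hval
      exact hval.of_comp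
    have h5 := hy.cardinalMk_le_trdeg
    simpa using h5
  · by_contra hcon
    push Not at hcon
    obtain ⟨hz, h1, h2, h3⟩ := hcon
    rw [Transcendental, not_not] at hz h1 h2 h3
    exact (hind h1 h2 h3).transcendental 3 hz

end Pool.Agent.Results.MP_48b3e2_nt.GompertzMoments
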